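import Pool.Agent.W175.GF.Stm

set_option autoImplicit false

/-!
GF-LAST: orders of zeros of products of `1 - exp`.
-/

namespace Pool.Agent.W688.GF

open Complex Pool.Agent.W175.GF

/-- the factor -/
noncomputable def fac (b : ℝ) (e u : ℂ) : ℂ := 1 - exp (2 * Real.pi * I * e - 2 * Real.pi * b * u)

lemma fac_zero_iff (b : ℝ) (e u : ℂ) : fac b e u = 0 ↔ ∃ n : ℤ, e - n = -I * b * u := by
  unfold fac
  rw [sub_eq_zero, eq_comm, exp_eq_one_iff]
  have hpi : (Real.pi : ℂ) ≠ 0 := by exact_mod_cast Real.pi_ne_zero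
  constructor
  · rintro ⟨n, hn⟩
    refine ⟨n, ?_⟩
    have h2 : 2 * (Real.pi : ℂ) * (I * e - b * u) = 2 * (Real.pi : ℂ) * (n * I) := by
      linear_combination hn
    have h3 := mul_left_cancel₀ (mul_ne_zero two_ne_zero hpi) h2
    have hI : I * I = -1 := I_mul_I
    linear_combination (-I) * h3 + (e - n) * hI
  · rintro ⟨n, hn⟩
    refine ⟨n, ?_⟩
    have hI : I * I = -1 := I_mul_I
    linear_combination (2 * (Real.pi : ℂ) * I) * hn - 2 * (Real.pi : ℂ) * b * u * hI

lemma last_aux (J : Type) [Fintype J] (β : J → ℝ) (η : J → ℂ) (j : J) (k k' : J → ℕ)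
    (hβ : ∀ i, 0 < β i)
    (hη : ∀ i, i ≠ j → ∀ p q : ℚ, ¬ (β i = p * β j ∧ η i = p * η j + q))
    (hk : k j < k' j)
    (h : ∀ u : ℂ, ∏ i, (fac (β i) (η i) u) ^ k i = ∏ i, (fac (β i) (η i) u) ^ k' i) : False := by
  classical
  have hβj : (β j : ℂ) ≠ 0 := by exact_mod_cast (hβ j).ne'
  have hgood : ∃ l : ℕ, ∀ i, i ≠ j → fac (β i) (η i) (I * (η j - l) / β j) ≠ 0 := by
    by_contra hcon
    push Not at hcon
    choose f hf using hcon
    have hf1 := fun l => (hf l).1
    have hf2 := fun l => (fac_zero_iff _ _ _).1 (hf l).2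
    choose n hn using hf2
    obtain ⟨l1, l2, hne, heq⟩ := Finite.exists_ne_map_eq_of_infinite f
    have e1 := hn l1
    have e2 := hn l2
    rw [← heq] at e2
    set i := f l1 with hi
    have hI : I * I = -1 := I_mul_I
    have e1' : (η i - n l1) * β j = β i * (η j - l1) := by
      rw [e1]; field_simp; linear_combination (-(β i : ℂ) * (η j - l1)) * hI
    have e2' : (η i - n l2) * β j = β i * (η j - l2) := by
      rw [e2]; field_simp; linear_combination (-(β i : ℂ) * (η j - l2)) * hI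
    have hl : ((l1 : ℂ) - l2) ≠ 0 := by
      rw [sub_ne_zero]; exact_mod_cast hne
    have e3 : (β i : ℂ) * (l1 - l2) = (n l1 - n l2) * β j := by linear_combination e1' - e2'
    have hp : (β i : ℂ) = (((n l1 - n l2 : ℤ) : ℚ) / ((l1 - l2 : ℤ) : ℚ) : ℚ) * (β j : ℂ) := by
      push_cast
      field_simp
      linear_combination e3
    refine hη i (hf1 l1) (((n l1 - n l2 : ℤ) : ℚ) / ((l1 - l2 : ℤ) : ℚ))
      (n l1 - (((n l1 - n l2 : ℤ) : ℚ) / ((l1 - l2 : ℤ) : ℚ)) * l1) ⟨?_, ?_⟩
    · exact_mod_cast hp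
    · have e4 : η i * β j = ((((n l1 - n l2 : ℤ) : ℚ) / ((l1 - l2 : ℤ) : ℚ) : ℚ) * (η j - l1) + n l1) * β j := by
        rw [hp] at e1'
        linear_combination e1'
      have e5 := mul_right_cancel₀ hβj e4
      rw [e5]
      push_cast
      ring
  obtain ⟨l, hl⟩ := hgood
  set u0 : ℂ := I * (η j - l) / β j with hu0
  have hz : fac (β j) (η j) u0 = 0 := by
    rw [fac_zero_iff]
    refine ⟨l, ?_⟩
    rw [hu0]
    have hI : I * I = -1 := I_mul_I
    field_simp
    push_cast
    linear_combination (η j - l) * hI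
  have hd : HasDerivAt (fun u => fac (β j) (η j) u) (2 * Real.pi * β j) u0 := by
    unfold fac
    have h1 : HasDerivAt (fun u : ℂ => 2 * Real.pi * I * η j - 2 * Real.pi * β j * u)
        (-(2 * Real.pi * β j)) u0 := by
      simpa using ((hasDerivAt_id u0).const_mul (2 * (Real.pi : ℂ) * β j)).const_sub
        (2 * Real.pi * I * η j)
    have h2 := (h1.cexp).const_sub 1
    have h3 : exp (2 * Real.pi * I * η j - 2 * Real.pi * β j * u0) = 1 := by
      have := hz; unfold fac at this; linear_combination -this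
    rw [h3] at h2
    simpa using h2
  have hpi : (Real.pi : ℂ) ≠ 0 := by exact_mod_cast Real.pi_ne_zero
  have hev : ∀ᶠ u in nhdsWithin u0 {u0}ᶜ, fac (β j) (η j) u ≠ 0 :=
    hd.eventually_ne (mul_ne_zero (mul_ne_zero two_ne_zero hpi) hβj)
  have hcont : ∀ i, Continuous (fun u => fac (β i) (η i) u) := by
    intro i; unfold fac; fun_prop
  have hP : Continuous (fun u => ∏ i ∈ Finset.univ.erase j, fac (β i) (η i) u ^ k i) :=
    continuous_finsetProd _ (fun i _ => (hcont i).pow _)
  have hQ : Continuous (fun u => fac (β j) (η j) u ^ (k' j - k j) *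
      ∏ i ∈ Finset.univ.erase j, fac (β i) (η i) u ^ k' i) :=
    ((hcont j).pow _).mul (continuous_finsetProd _ (fun i _ => (hcont i).pow _))
  have heq : (fun u => ∏ i ∈ Finset.univ.erase j, fac (β i) (η i) u ^ k i) =ᶠ[nhdsWithin u0 {u0}ᶜ]
      (fun u => fac (β j) (η j) u ^ (k' j - k j) *
        ∏ i ∈ Finset.univ.erase j, fac (β i) (η i) u ^ k' i) := by
    filter_upwards [hev] with u hu
    have h1 := h u
    rw [← Finset.mul_prod_erase Finset.univ _ (Finset.mem_univ j),
      ← Finset.mul_prod_erase Finset.univ (fun i => fac (β i) (η i) u ^ k' i) (Finset.mem_univ j)] at h1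
    have h2 : fac (β j) (η j) u ^ k' j = fac (β j) (η j) u ^ k j * fac (β j) (η j) u ^ (k' j - k j) := by
      rw [← pow_add]; congr 1; omega
    rw [h2, mul_assoc] at h1
    exact mul_left_cancel₀ (pow_ne_zero _ hu) h1
  have l1 := (hP.tendsto u0).mono_left (nhdsWithin_le_nhds (s := {u0}ᶜ))
  have l2 := (hQ.tendsto u0).mono_left (nhdsWithin_le_nhds (s := {u0}ᶜ))
  have l3 := tendsto_nhds_unique (l1.congr' heq) l2
  simp only [hz] at l3
  rw [zero_pow (by omega), zero_mul, Finset.prod_eq_zero_iff] at l3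
  obtain ⟨i, hi, h0⟩ := l3
  exact hl i (Finset.ne_of_mem_erase hi) (pow_eq_zero_iff_of_pos_aux h0)
where
  pow_eq_zero_iff_of_pos_aux {a : ℂ} {n : ℕ} (h : a ^ n = 0) : a = 0 := by
    by_contra h0
    exact pow_ne_zero n h0 h

theorem last : S_LAST := by
  intro J _ β η j k k' hβ hη h
  rcases lt_trichotomy (k j) (k' j) with h1 | h1 | h1
  · exact (last_aux J β η j k k' hβ hη h1 h).elim
  · exact h1
  · exact (last_aux J β η j k' k hβ hη h1 (fun u => (h u).symm)).elim

end Pool.Agent.W688.GF
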