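import Pool.Agent.W175.GF.Stm

set_option autoImplicit false

/-!
GF-SEP: separation of exponents.
-/

namespace Pool.Agent.W688.GF

open Complex Pool.Agent.W175.GF

lemma hp_isOpen (ψ ρ : ℝ) : IsOpen (Hp ψ ρ) := by
  have : Continuous (fun τ : ℂ => (τ * exp (-(ψ * I))).re) := by fun_prop
  exact isOpen_lt continuous_const this

lemma hp_convex (ψ ρ : ℝ) : Convex ℝ (Hp ψ ρ) := by
  intro x hx y hy a b ha hb hab
  simp only [Hp, Set.mem_ofPred_eq] at hx hy ⊢
  have e : ((a • x + b • y) * exp (-(ψ * I))).re =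
      a * (x * exp (-(ψ * I))).re + b * (y * exp (-(ψ * I))).re := by
    rw [add_mul, smul_mul_assoc, smul_mul_assoc, add_re, real_smul, real_smul,
      re_ofReal_mul, re_ofReal_mul]
  rw [e]
  rcases eq_or_lt_of_le ha with h | h
  · have hb1 : b = 1 := by linarith
    rw [← h, hb1]; linarith
  · have e1 := mul_lt_mul_of_pos_left hx h
    have e2 := mul_le_mul_of_nonneg_left hy.le hb
    have e3 : a * ρ + b * ρ = ρ := by rw [← add_mul, hab, one_mul]
    linarith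

lemma generic_subsingleton (ψ₁ ψ₂ : ℝ) (h1 : -(Real.pi / 2) < ψ₁) (h2 : ψ₂ < Real.pi / 2)
    (d : ℂ) (hd : d ≠ 0) :
    {ψ : ℝ | ψ ∈ Set.Ioo ψ₁ ψ₂ ∧ (d * (I * exp (ψ * I))).re = 0}.Subsingleton := by
  rintro x ⟨hx, hx0⟩ y ⟨hy, hy0⟩
  have key : ∀ t : ℝ, (d * (I * exp (t * I))).re = -(d.im * Real.cos t + d.re * Real.sin t) := by
    intro t
    rw [exp_mul_I, ← ofReal_cos, ← ofReal_sin]
    simp only [mul_re, mul_im, I_re, I_im, add_re, add_im, ofReal_re, ofReal_im]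
    ring
  rw [key] at hx0 hy0
  by_contra hne
  have hs : Real.sin (y - x) ≠ 0 := by
    intro h0
    rcases lt_or_gt_of_ne hne with h | h
    · have := Real.sin_pos_of_pos_of_lt_pi (x := y - x) (by linarith) (by linarith [hx.1, hy.2])
      linarith
    · have := Real.sin_neg_of_neg_of_neg_pi_lt (x := y - x) (by linarith) (by linarith [hy.1, hx.2])
      linarith
  rw [Real.sin_sub] at hs
  apply hd
  have a1 : d.im * (Real.sin y * Real.cos x - Real.cos y * Real.sin x) = 0 := by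
    linear_combination (-Real.sin y) * hx0 + Real.sin x * hy0
  have a2 : d.re * (Real.sin y * Real.cos x - Real.cos y * Real.sin x) = 0 := by
    linear_combination (Real.cos y) * hx0 - Real.cos x * hy0
  have b1 := (mul_eq_zero.1 a1).resolve_right hs
  have b2 := (mul_eq_zero.1 a2).resolve_right hs
  exact Complex.ext b2 b1

/-- the point on the boundary line -/
noncomputable def bp (ψ ρ' y : ℝ) : ℂ := exp (ψ * I) * (y * I + ρ')

lemma norm_bp_le (ψ ρ' y : ℝ) (hρ : 0 ≤ ρ') (hy : 0 ≤ y) : ‖bp ψ ρ' y‖ ≤ y + ρ' := by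
  unfold bp
  rw [norm_mul, norm_exp_ofReal_mul_I, one_mul]
  refine (norm_add_le _ _).trans ?_
  simp [abs_of_nonneg hy, abs_of_nonneg hρ]

lemma le_norm_bp (ψ ρ' y : ℝ) : y ≤ ‖bp ψ ρ' y‖ := by
  unfold bp
  rw [norm_mul, norm_exp_ofReal_mul_I, one_mul]
  have := Complex.abs_im_le_norm ((y : ℂ) * I + ρ')
  simp at this
  exact (le_abs_self y).trans this

lemma le_norm_bp' (ψ ρ' y : ℝ) : ρ' ≤ ‖bp ψ ρ' y‖ := by
  unfold bp
  rw [norm_mul, norm_exp_ofReal_mul_I, one_mul]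
  have := Complex.abs_re_le_norm ((y : ℂ) * I + ρ')
  simp at this
  exact (le_abs_self ρ').trans this

lemma bp_re (ψ ρ' y : ℝ) (D : ℂ) :
    (D * bp ψ ρ' y).re = y * (D * (I * exp (ψ * I))).re + ρ' * (D * exp (ψ * I)).re := by
  unfold bp
  have : D * (exp (ψ * I) * (y * I + ρ')) = y * (D * (I * exp (ψ * I))) + ρ' * (D * exp (ψ * I)) := by
    ring
  rw [this, add_re, re_ofReal_mul, re_ofReal_mul]

/-- exponent bound -/
lemma expo_bound (ψ ρ' : ℝ) (hρ : 1 < ρ') (D D2 : ℂ)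
    (h : (D * (I * exp (ψ * I))).re < 0 ∨ (D = 0 ∧ (D2 * (I * exp (ψ * I))).re < 0)) :
    ∃ c C : ℝ, 0 < c ∧ ∀ y : ℝ, 0 ≤ y →
      (D * (bp ψ ρ' y * log (bp ψ ρ' y)) + D2 * bp ψ ρ' y).re ≤ -(c * y) + C := by
  rcases h with h | ⟨h0, h⟩
  · set a : ℝ := -(D * (I * exp (ψ * I))).re with ha
    have hapos : 0 < a := by linarith
    set K : ℝ := |ρ' * (D * exp (ψ * I)).re| with hK
    set K2 : ℝ := K + ‖D‖ * Real.pi + ‖D2‖ with hK2
    have hKnn : 0 ≤ K := abs_nonneg _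
    have hK2nn : 0 ≤ K2 := by positivity
    set M : ℝ := (K2 + 1) / a with hM
    refine ⟨1, Real.exp M + K2 * (Real.exp M + ρ'), one_pos, ?_⟩
    intro y hy
    set τ := bp ψ ρ' y with hτ
    have hn1 : ‖τ‖ ≤ y + ρ' := norm_bp_le ψ ρ' y (by linarith) hy
    have hn2 : y ≤ ‖τ‖ := le_norm_bp ψ ρ' y
    have hn3 : ρ' ≤ ‖τ‖ := le_norm_bp' ψ ρ' y
    set L := Real.log ‖τ‖ with hL
    have hLnn : 0 ≤ L := Real.log_nonneg (by linarith)
    have hLle : L ≤ y + ρ' := (Real.log_le_self (by linarith)).trans hn1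
    have e1 : (D * (τ * log τ) + D2 * τ).re = (D * τ).re * L - (D * τ).im * arg τ + (D2 * τ).re := by
      rw [add_re, ← mul_assoc, mul_re, log_re, log_im]
    have e2 : (D * τ).re = -(a * y) + ρ' * (D * exp (ψ * I)).re := by
      rw [hτ, bp_re, ha]; ring
    have e3 : |(D * τ).im * arg τ| ≤ ‖D‖ * (y + ρ') * Real.pi := by
      rw [abs_mul]
      have := Complex.abs_im_le_norm (D * τ)
      rw [norm_mul] at this
      have h3 := abs_arg_le_pi τ
      have h4 : |(D * τ).im| ≤ ‖D‖ * (y + ρ') :=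
        this.trans (mul_le_mul_of_nonneg_left hn1 (norm_nonneg _))
      exact mul_le_mul h4 h3 (abs_nonneg _) (mul_nonneg (norm_nonneg _) (by linarith))
    have e4 : (D2 * τ).re ≤ ‖D2‖ * (y + ρ') := by
      refine (re_le_norm _).trans ?_
      rw [norm_mul]
      exact mul_le_mul_of_nonneg_left hn1 (norm_nonneg _)
    have e5 : ρ' * (D * exp (ψ * I)).re * L ≤ K * (y + ρ') := by
      calc _ ≤ K * L := mul_le_mul_of_nonneg_right (le_abs_self _) hLnn
        _ ≤ _ := mul_le_mul_of_nonneg_left hLle hKnn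
    have tot : (D * (τ * log τ) + D2 * τ).re ≤ -(a * y * L) + K2 * (y + ρ') := by
      rw [e1, e2, hK2]
      have := neg_abs_le ((D * τ).im * arg τ)
      nlinarith
    refine tot.trans ?_
    by_cases hc : M ≤ L
    · have h1 : (K2 + 1) * y ≤ a * y * L := by
        have : K2 + 1 ≤ a * L := by
          rw [hM, div_le_iff₀ hapos] at hc; linarith
        nlinarith
      have h2 : 0 ≤ Real.exp M := (Real.exp_pos _).le
      nlinarith
    · push Not at hc
      have h1 : ‖τ‖ < Real.exp M := by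
        rw [hL, Real.log_lt_iff_lt_exp (by linarith)] at hc
        exact hc
      have h2 : 0 ≤ a * y * L := by positivity
      have h3 : y ≤ Real.exp M := by linarith
      nlinarith
  · refine ⟨-(D2 * (I * exp (ψ * I))).re, ρ' * (D2 * exp (ψ * I)).re, by linarith, ?_⟩
    intro y hy
    rw [h0, zero_mul, zero_add, bp_re]
    linarith

/-- uniform version -/
lemma expo_bound_unif (ψ ρ' : ℝ) (hρ : 1 < ρ') (p0 : ℂ × ℂ) (S : Finset (ℂ × ℂ))
    (h : ∀ p ∈ S, ((p.1 - p0.1) * (I * exp (ψ * I))).re < 0 ∨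
      (p.1 - p0.1 = 0 ∧ ((p.2 - p0.2) * (I * exp (ψ * I))).re < 0)) :
    ∃ c C : ℝ, 0 < c ∧ ∀ p ∈ S, ∀ y : ℝ, 0 ≤ y →
      ((p.1 - p0.1) * (bp ψ ρ' y * log (bp ψ ρ' y)) + (p.2 - p0.2) * bp ψ ρ' y).re ≤ -(c * y) + C := by
  classical
  induction S using Finset.induction_on with
  | empty => exact ⟨1, 0, one_pos, by simp⟩
  | insert a S ha ih =>
    obtain ⟨c1, C1, hc1, h1⟩ := ih (fun p hp => h p (Finset.mem_insert_of_mem hp))
    obtain ⟨c2, C2, hc2, h2⟩ := expo_bound ψ ρ' hρ _ _ (h a (Finset.mem_insert_self _ _))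
    refine ⟨min c1 c2, max C1 C2, lt_min hc1 hc2, ?_⟩
    intro p hp y hy
    rcases Finset.mem_insert.1 hp with rfl | hp
    · refine (h2 y hy).trans ?_
      have a1 := mul_le_mul_of_nonneg_right (min_le_right c1 c2) hy
      have a2 := le_max_right C1 C2
      linarith
    · refine (h1 p hp y hy).trans ?_
      have a1 := mul_le_mul_of_nonneg_right (min_le_left c1 c2) hy
      have a2 := le_max_left C1 C2
      linarith

lemma slow_unif (ψ₁ ψ₂ ρ ψ : ℝ) (hψ : ψ ∈ Set.Ioo ψ₁ ψ₂) (T : Finset (ℂ × ℂ))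
    (R : ℂ × ℂ → ℂ → ℂ) (hR : ∀ p ∈ T, SlowH ψ₁ ψ₂ ρ (R p)) (ε : ℝ) (hε : 0 < ε) :
    ∃ C : ℝ, 0 ≤ C ∧ ∀ p ∈ T, ∀ τ ∈ Hp ψ ρ, ‖R p τ‖ ≤ C * Real.exp (ε * ‖τ‖) := by
  classical
  induction T using Finset.induction_on with
  | empty => exact ⟨0, le_rfl, by simp⟩
  | insert a S ha ih =>
    obtain ⟨C1, hC1, h1⟩ := ih (fun p hp => hR p (Finset.mem_insert_of_mem hp))
    obtain ⟨C2, h2⟩ := ((hR a (Finset.mem_insert_self _ _)) ψ hψ).2 ε hε
    refine ⟨max C1 C2, le_max_of_le_left hC1, ?_⟩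
    intro p hp τ hτ
    rcases Finset.mem_insert.1 hp with rfl | hp
    · exact (h2 τ hτ).trans (mul_le_mul_of_nonneg_right (le_max_right _ _) (Real.exp_pos _).le)
    · exact (h1 p hp τ hτ).trans (mul_le_mul_of_nonneg_right (le_max_left _ _) (Real.exp_pos _).le)

/-- the top exponent has vanishing coefficient, on the generic half plane -/
lemma top_zero (hcarl : S_CARL) (ψ₁ ψ₂ ρ : ℝ) (hρ : 1 ≤ ρ) (T : Finset (ℂ × ℂ))
    (R : ℂ × ℂ → ℂ → ℂ) (hR : ∀ p ∈ T, SlowH ψ₁ ψ₂ ρ (R p)) (ψ : ℝ) (hψ : ψ ∈ Set.Ioo ψ₁ ψ₂)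
    (hsum : ∀ τ ∈ Hp ψ ρ, ∑ p ∈ T, R p τ * exp (p.1 * (τ * log τ) + p.2 * τ) = 0)
    (p0 : ℂ × ℂ) (hp0 : p0 ∈ T)
    (htop : ∀ p ∈ T.erase p0, ((p.1 - p0.1) * (I * exp (ψ * I))).re < 0 ∨
      (p.1 - p0.1 = 0 ∧ ((p.2 - p0.2) * (I * exp (ψ * I))).re < 0)) :
    ∀ τ ∈ Hp ψ ρ, R p0 τ = 0 := by
  classical
  intro τ₀ hτ₀
  set ρ' : ℝ := (τ₀ * exp (-(ψ * I))).re with hρ'
  have hρ'1 : ρ < ρ' := hτ₀
  have hρ'2 : 1 < ρ' := by linarith
  have hee : exp (ψ * I) * exp (-(ψ * I)) = 1 := by rw [← exp_add]; simp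
  obtain ⟨c, C1, hc, hbd⟩ := expo_bound_unif ψ ρ' hρ'2 p0 (T.erase p0) htop
  obtain ⟨C2, hC2, hsl⟩ := slow_unif ψ₁ ψ₂ ρ ψ hψ T R hR (c / 4) (by linarith)
  have hmem : ∀ z : ℂ, 0 ≤ z.re → exp (ψ * I) * (z + ρ') ∈ Hp ψ ρ := by
    intro z hz
    simp only [Hp, Set.mem_ofPred_eq]
    have : exp (ψ * I) * (z + ρ') * exp (-(ψ * I)) = z + ρ' := by
      linear_combination (z + ρ') * hee
    rw [this, add_re, ofReal_re]
    linarith
  set f : ℂ → ℂ := fun z => R p0 (exp (ψ * I) * (z + ρ')) with hf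
  have hnorm : ∀ z : ℂ, ‖exp (ψ * I) * (z + ρ')‖ ≤ ‖z‖ + ρ' := by
    intro z
    rw [norm_mul, norm_exp_ofReal_mul_I, one_mul]
    refine (norm_add_le _ _).trans ?_
    rw [norm_real, Real.norm_eq_abs, abs_of_nonneg (by linarith)]
  have hfb : ∀ z : ℂ, 0 ≤ z.re → ‖f z‖ ≤ C2 * Real.exp (c / 4 * ρ') * Real.exp (c / 4 * ‖z‖) := by
    intro z hz
    refine (hsl p0 hp0 _ (hmem z hz)).trans ?_
    rw [mul_assoc, ← Real.exp_add]
    apply mul_le_mul_of_nonneg_left _ hC2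
    apply Real.exp_le_exp.2
    have := hnorm z
    nlinarith
  have hdiff : DifferentiableOn ℂ (R p0) (Hp ψ ρ) := (hR p0 hp0 ψ hψ).1
  have hfd : DifferentiableOn ℂ f {z | 0 ≤ z.re} := by
    apply hdiff.comp (t := Hp ψ ρ)
    · fun_prop
    · intro z hz; exact hmem z hz
  have hcard : (0:ℝ) ≤ (T.erase p0).card := Nat.cast_nonneg _
  set Cbig : ℝ := C2 * Real.exp (c / 4 * ρ') +
    (T.erase p0).card * (C2 * Real.exp (c / 4 * ρ') * Real.exp C1) + c with hCbig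
  have hA : 0 ≤ C2 * Real.exp (c / 4 * ρ') := by positivity
  have hB : 0 ≤ (T.erase p0).card * (C2 * Real.exp (c / 4 * ρ') * Real.exp C1) := by positivity
  have h1 := hcarl f Cbig (3 / 4 * c) (c / 4) (by linarith)
    (hfd.mono (fun z hz => (le_of_lt hz : 0 ≤ z.re))) hfd.continuousOn
    (by
      intro z hz
      refine (hfb z hz).trans ?_
      apply mul_le_mul (by linarith) _ (Real.exp_pos _).le (by linarith)
      apply Real.exp_le_exp.2
      apply mul_le_mul_of_nonneg_right (by linarith) (norm_nonneg _))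
    (by
      intro y hy
      have hτm : bp ψ ρ' y ∈ Hp ψ ρ := hmem (y * I) (by simp)
      have hs := hsum _ hτm
      rw [← Finset.add_sum_erase _ _ hp0] at hs
      set τ := bp ψ ρ' y with hτ
      have hfe : f (y * I) = - ∑ p ∈ T.erase p0, R p τ *
          exp ((p.1 - p0.1) * (τ * log τ) + (p.2 - p0.2) * τ) := by
        have e0 : f (y * I) = R p0 τ := rfl
        rw [e0]
        have e1 : R p0 τ * exp (p0.1 * (τ * log τ) + p0.2 * τ) =
            (- ∑ p ∈ T.erase p0, R p τ * exp ((p.1 - p0.1) * (τ * log τ) + (p.2 - p0.2) * τ)) *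
              exp (p0.1 * (τ * log τ) + p0.2 * τ) := by
          rw [neg_mul, Finset.sum_mul, eq_neg_iff_add_eq_zero, ← hs]
          congr 1
          apply Finset.sum_congr rfl
          intro p _
          rw [mul_assoc, ← exp_add]
          congr 2
          ring
        exact mul_right_cancel₀ (exp_ne_zero _) e1
      rw [hfe, norm_neg]
      refine (norm_sum_le _ _).trans ?_
      have hterm : ∀ p ∈ T.erase p0, ‖R p τ * exp ((p.1 - p0.1) * (τ * log τ) + (p.2 - p0.2) * τ)‖ ≤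
          C2 * Real.exp (c / 4 * ρ') * Real.exp C1 * Real.exp (-(3 / 4 * c * y)) := by
        intro p hp
        rw [norm_mul, norm_exp]
        have b1 := hsl p (Finset.mem_of_mem_erase hp) τ hτm
        have b2 := hbd p hp y hy
        have b3 := norm_bp_le ψ ρ' y (by linarith) hy
        calc _ ≤ (C2 * Real.exp (c / 4 * ‖τ‖)) * Real.exp (-(c * y) + C1) :=
              mul_le_mul b1 (Real.exp_le_exp.2 b2) (Real.exp_pos _).le (by positivity)
          _ ≤ (C2 * Real.exp (c / 4 * (y + ρ'))) * Real.exp (-(c * y) + C1) := by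
              apply mul_le_mul_of_nonneg_right _ (Real.exp_pos _).le
              apply mul_le_mul_of_nonneg_left _ hC2
              apply Real.exp_le_exp.2
              nlinarith
          _ = _ := by
              rw [mul_assoc, mul_assoc, mul_assoc, ← Real.exp_add, ← Real.exp_add, ← Real.exp_add]
              congr 2
              ring
      refine (Finset.sum_le_sum hterm).trans ?_
      rw [Finset.sum_const, nsmul_eq_mul, ← mul_assoc]
      apply mul_le_mul_of_nonneg_right _ (Real.exp_pos _).le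
      linarith)
    (by
      intro y hy
      have := hfb (-(y * I)) (by simp)
      rw [norm_neg, norm_mul, norm_I, mul_one, norm_real, Real.norm_eq_abs, abs_of_nonneg hy] at this
      refine this.trans ?_
      apply mul_le_mul_of_nonneg_right _ (Real.exp_pos _).le
      linarith)
    (τ₀ * exp (-(ψ * I)) - ρ') (by simp [hρ'])
  rw [hf] at h1
  simp only at h1
  have e : exp (ψ * I) * (τ₀ * exp (-(ψ * I)) - ρ' + ρ') = τ₀ := by
    linear_combination τ₀ * hee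
  rw [e] at h1
  exact h1

lemma transfer (ψ ψ' ρ : ℝ) (h1 : |ψ' - ψ| < Real.pi) (f : ℂ → ℂ)
    (hf : DifferentiableOn ℂ f (Hp ψ' ρ)) (h0 : ∀ τ ∈ Hp ψ ρ, f τ = 0) :
    ∀ τ ∈ Hp ψ' ρ, f τ = 0 := by
  have hcos : 0 < Real.cos ((ψ' - ψ) / 2) := by
    have := abs_lt.1 h1
    apply Real.cos_pos_of_mem_Ioo
    constructor <;> linarith [this.1, this.2]
  set t : ℝ := (|ρ| + 1) / Real.cos ((ψ' - ψ) / 2) with ht
  set τ₀ : ℂ := t * exp (((ψ + ψ') / 2 : ℝ) * I) with hτ₀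
  have htc : t * Real.cos ((ψ' - ψ) / 2) = |ρ| + 1 := by
    rw [ht]; field_simp
  have hm1 : τ₀ ∈ Hp ψ ρ := by
    simp only [Hp, Set.mem_ofPred_eq]
    rw [hτ₀, mul_assoc, ← exp_add]
    have : (((ψ + ψ') / 2 : ℝ) : ℂ) * I + -(ψ * I) = (((ψ' - ψ) / 2 : ℝ) : ℂ) * I := by
      push_cast; ring
    rw [this, re_ofReal_mul, exp_ofReal_mul_I_re, htc]
    linarith [le_abs_self ρ]
  have hm2 : τ₀ ∈ Hp ψ' ρ := by
    simp only [Hp, Set.mem_ofPred_eq]
    rw [hτ₀, mul_assoc, ← exp_add]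
    have : (((ψ + ψ') / 2 : ℝ) : ℂ) * I + -(ψ' * I) = ((-((ψ' - ψ) / 2) : ℝ) : ℂ) * I := by
      push_cast; ring
    rw [this, re_ofReal_mul, exp_ofReal_mul_I_re, Real.cos_neg, htc]
    linarith [le_abs_self ρ]
  have han : AnalyticOnNhd ℂ f (Hp ψ' ρ) := hf.analyticOnNhd (hp_isOpen ψ' ρ)
  have := han.eqOn_zero_of_preconnected_of_eventuallyEq_zero (hp_convex ψ' ρ).isPreconnected hm2
    (by
      filter_upwards [(hp_isOpen ψ ρ).mem_nhds hm1] with τ hτ
      exact h0 τ hτ)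
  exact fun τ hτ => this hτ

lemma exists_generic (ψ₁ ψ₂ : ℝ) (h1 : -(Real.pi / 2) < ψ₁) (h12 : ψ₁ < ψ₂)
    (h2 : ψ₂ < Real.pi / 2) (E : Finset ℂ) :
    ∃ ψ ∈ Set.Ioo ψ₁ ψ₂, ∀ d ∈ E, d ≠ 0 → (d * (I * exp (ψ * I))).re ≠ 0 := by
  have hfin : (⋃ d ∈ (E.filter (· ≠ 0) : Finset ℂ), {ψ : ℝ | ψ ∈ Set.Ioo ψ₁ ψ₂ ∧
      (d * (I * exp (ψ * I))).re = 0}).Finite := by
    apply Set.Finite.biUnion (Finset.finite_toSet _)
    intro d hd
    have hd' : d ≠ 0 := by
      have := Finset.mem_coe.1 hd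
      exact (Finset.mem_filter.1 this).2
    exact (generic_subsingleton ψ₁ ψ₂ h1 h2 d hd').finite
  obtain ⟨ψ, hψ, hn⟩ := ((Set.Ioo_infinite h12).sdiff hfin).nonempty
  refine ⟨ψ, hψ, ?_⟩
  intro d hd hd0 h0
  apply hn
  simp only [Set.mem_iUnion]
  exact ⟨d, Finset.mem_filter.2 ⟨hd, hd0⟩, hψ, h0⟩

theorem sep (hcarl : S_CARL) : S_SEP := by
  classical
  intro ψ₁ ψ₂ ρ h1 h12 h2 hρ T
  induction T using Finset.strongInduction with
  | H T ih =>
    intro R hR hsum p hp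
    obtain ⟨ψ, hψ, hgen⟩ := exists_generic ψ₁ ψ₂ h1 h12 h2
      ((T ×ˢ T).image (fun pq => pq.1.1 - pq.2.1) ∪ (T ×ˢ T).image (fun pq => pq.1.2 - pq.2.2))
    obtain ⟨p0, hp0, hmax⟩ := Finset.exists_max_image T
      (fun p => toLex (((p.1 * (I * exp (ψ * I))).re, (p.2 * (I * exp (ψ * I))).re) : ℝ × ℝ)) ⟨p, hp⟩
    have htop : ∀ p ∈ T.erase p0, ((p.1 - p0.1) * (I * exp (ψ * I))).re < 0 ∨
        (p.1 - p0.1 = 0 ∧ ((p.2 - p0.2) * (I * exp (ψ * I))).re < 0) := by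
      intro q hq
      have hqT := Finset.mem_of_mem_erase hq
      have hne := Finset.ne_of_mem_erase hq
      have hm := hmax q hqT
      rw [Prod.Lex.le_iff] at hm
      simp only [ofLex_toLex] at hm
      have g1 : q.1 - p0.1 ≠ 0 → ((q.1 - p0.1) * (I * exp (ψ * I))).re ≠ 0 := by
        apply hgen
        apply Finset.mem_union_left
        exact Finset.mem_image.2 ⟨(q, p0), Finset.mem_product.2 ⟨hqT, hp0⟩, rfl⟩
      have g2 : q.2 - p0.2 ≠ 0 → ((q.2 - p0.2) * (I * exp (ψ * I))).re ≠ 0 := by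
        apply hgen
        apply Finset.mem_union_right
        exact Finset.mem_image.2 ⟨(q, p0), Finset.mem_product.2 ⟨hqT, hp0⟩, rfl⟩
      have s1 : ((q.1 - p0.1) * (I * exp (ψ * I))).re =
          (q.1 * (I * exp (ψ * I))).re - (p0.1 * (I * exp (ψ * I))).re := by
        rw [sub_mul, sub_re]
      have s2 : ((q.2 - p0.2) * (I * exp (ψ * I))).re =
          (q.2 * (I * exp (ψ * I))).re - (p0.2 * (I * exp (ψ * I))).re := by
        rw [sub_mul, sub_re]
      by_cases hd : q.1 - p0.1 = 0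
      · right
        refine ⟨hd, ?_⟩
        have hd2 : q.2 - p0.2 ≠ 0 := by
          intro h0
          exact hne (Prod.ext (sub_eq_zero.1 hd) (sub_eq_zero.1 h0))
        have hg := g2 hd2
        rcases hm with hm | ⟨hm1, hm2⟩
        · rw [sub_eq_zero.1 hd] at hm
          exact absurd hm (lt_irrefl _)
        · rw [s2] at hg ⊢
          exact lt_of_le_of_ne (by linarith) hg
      · left
        have hg := g1 hd
        rw [s1] at hg ⊢
        rcases hm with hm | ⟨hm1, hm2⟩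
        · linarith
        · exact absurd (by linarith) hg
    have hz := top_zero hcarl ψ₁ ψ₂ ρ hρ T R hR ψ hψ (hsum ψ hψ) p0 hp0 htop
    have hz' : ∀ ψ' ∈ Set.Ioo ψ₁ ψ₂, ∀ τ ∈ Hp ψ' ρ, R p0 τ = 0 := by
      intro ψ' hψ'
      apply transfer ψ ψ' ρ _ (R p0) (hR p0 hp0 ψ' hψ').1 hz
      rw [abs_lt]
      constructor <;> linarith [hψ.1, hψ.2, hψ'.1, hψ'.2]
    by_cases hpp : p = p0
    · rw [hpp]; exact hz'
    · refine ih (T.erase p0) (Finset.erase_ssubset hp0) R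
        (fun q hq => hR q (Finset.mem_of_mem_erase hq)) ?_ p (Finset.mem_erase.2 ⟨hpp, hp⟩)
      intro ψ' hψ' τ hτ
      have := hsum ψ' hψ' τ hτ
      rw [← Finset.add_sum_erase _ _ hp0, hz' ψ' hψ' τ hτ, zero_mul, zero_add] at this
      exact this

end Pool.Agent.W688.GF
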