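import Pool.Agent.W175.GF.Stm
import Pool.Agent.H401R2.Stir

set_option autoImplicit false

/-!
GF-STIR: Stirling's formula in sectors.
-/

namespace Pool.Agent.W688.GF

open Complex Pool.Agent.W175.GF Pool.Agent.H401R2 Filter Topology

lemma norm_mB_shift {z : ℂ} (hz : 1 ≤ z.re) (k : ℕ) : ‖mB (z + k)‖ ≤ 1 / (8 * ((k : ℝ) + 1) ^ 2) := by
  have hk : (0:ℝ) ≤ k := Nat.cast_nonneg k
  have hz' : 0 < (z + k).re := by simp; linarith
  rw [mB_eq hz']
  have h := intervalIntegral.norm_integral_le_of_norm_le_const (a := 0) (b := 1)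
    (f := fun x : ℝ => ((x * (1 - x) / 2 : ℝ) : ℂ) / (z + k + x) ^ 2)
    (C := 1 / (8 * ((k : ℝ) + 1) ^ 2)) (by
      intro x hx
      rw [Set.uIoc_of_le zero_le_one] at hx
      have h1 : (k : ℝ) + 1 ≤ ‖z + k + x‖ := by
        refine le_trans ?_ (re_le_norm _)
        simp
        linarith [hx.1]
      have h2 : 0 ≤ x * (1 - x) / 2 := by nlinarith [hx.1, hx.2]
      have h3 : x * (1 - x) / 2 ≤ 1 / 8 := by nlinarith [sq_nonneg (x - 1/2)]
      rw [norm_div, norm_pow, norm_real, Real.norm_eq_abs, abs_of_nonneg h2]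
      calc _ ≤ (1 / 8) / ((k : ℝ) + 1) ^ 2 := by
            apply div_le_div₀ (by norm_num) h3 (by positivity)
            exact pow_le_pow_left₀ (by positivity) h1 2
        _ = _ := by rw [div_div])
  simpa using h

lemma sum_inv_sq_le (n : ℕ) : ∑ k ∈ Finset.range n, 1 / (8 * ((k : ℝ) + 1) ^ 2) ≤
    1 / 4 - 1 / (4 * ((n : ℝ) + 1)) := by
  induction n with
  | zero => simp
  | succ n ih =>
    rw [Finset.sum_range_succ]
    push_cast
    have h : 1 / (8 * ((n : ℝ) + 1) ^ 2) ≤ 1 / (4 * ((n : ℝ) + 1)) - 1 / (4 * ((n : ℝ) + 1 + 1)) := by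
      rw [div_sub_div _ _ (by positivity) (by positivity), div_le_div_iff₀ (by positivity) (by positivity)]
      have hn : (0:ℝ) ≤ n := Nat.cast_nonneg n
      nlinarith [mul_nonneg hn hn]
    linarith

lemma sum_mB_norm {z : ℂ} (hz : 1 ≤ z.re) (n : ℕ) :
    ‖∑ k ∈ Finset.range n, mB (z + k)‖ ≤ 1 / 4 := by
  refine (norm_sum_le _ _).trans ?_
  refine (Finset.sum_le_sum (fun k _ => norm_mB_shift hz k)).trans ?_
  refine (sum_inv_sq_le n).trans ?_
  have : (0:ℝ) ≤ 1 / (4 * ((n : ℝ) + 1)) := by positivity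
  linarith

/-- the constant -/
noncomputable def cS : ℝ := 1 / 4 + |Real.log (√(2 * Real.pi))|

lemma cS_nonneg : 0 ≤ cS := by unfold cS; positivity

lemma log_norm_sA {z : ℂ} (hz : 1 ≤ z.re) : |Real.log ‖sA z‖| ≤ cS := by
  have hz0 : 0 < z.re := by linarith
  have hA : sA z ≠ 0 := mul_ne_zero (Gamma_ne_zero_of_re_pos hz0) (exp_ne_zero _)
  have hlim := (tendsto_sA hz0).norm
  have hs : ‖((√(2 * Real.pi) : ℝ) : ℂ)‖ = √(2 * Real.pi) := by
    rw [norm_real, Real.norm_eq_abs, abs_of_nonneg (Real.sqrt_nonneg _)]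
  rw [hs] at hlim
  have hsp : 0 < √(2 * Real.pi) := by positivity
  have hlim2 := (Real.continuousAt_log hsp.ne').tendsto.comp hlim
  have hkey : ∀ n : ℕ, |Real.log ‖sA z‖ - Real.log ‖sA (z + n)‖| ≤ 1 / 4 := by
    intro n
    rw [sA_add_nat hz0, norm_mul, norm_exp, Real.log_mul (norm_ne_zero_iff.2 hA) (Real.exp_pos _).ne',
      Real.log_exp]
    have := (abs_re_le_norm (∑ k ∈ Finset.range n, mB (z + k))).trans (sum_mB_norm hz n)
    rw [neg_re]
    have e : Real.log ‖sA z‖ - (Real.log ‖sA z‖ + -(∑ k ∈ Finset.range n, mB (z + k)).re) =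
        (∑ k ∈ Finset.range n, mB (z + k)).re := by ring
    rw [e]
    exact this
  have h3 : Tendsto (fun n : ℕ => |Real.log ‖sA z‖ - Real.log ‖sA (z + n)‖|) atTop
      (𝓝 |Real.log ‖sA z‖ - Real.log (√(2 * Real.pi))|) :=
    ((tendsto_const_nhds (x := Real.log ‖sA z‖)).sub hlim2).abs
  have h4 := le_of_tendsto' h3 hkey
  have h5 := abs_add_le (Real.log ‖sA z‖ - Real.log (√(2 * Real.pi))) (Real.log (√(2 * Real.pi)))
  rw [sub_add_cancel] at h5
  unfold cS
  linarith

lemma stir_one {z : ℂ} (hz : 1 ≤ z.re) :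
    |Real.log ‖Gamma z‖ - (z * log z - z).re| ≤ cS + 1 / 2 * Real.log ‖z‖ := by
  have hz0 : 0 < z.re := by linarith
  have hG : Gamma z ≠ 0 := Gamma_ne_zero_of_re_pos hz0
  have h1 := log_norm_sA hz
  unfold sA at h1
  rw [norm_mul, norm_exp, Real.log_mul (norm_ne_zero_iff.2 hG) (Real.exp_pos _).ne', Real.log_exp] at h1
  have hn : 1 ≤ ‖z‖ := hz.trans (re_le_norm z)
  have hlog : 0 ≤ Real.log ‖z‖ := Real.log_nonneg hn
  have e : (-((z - 1/2) * log z - z)).re = -(z * log z - z).re + 1 / 2 * Real.log ‖z‖ := by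
    have : -((z - 1/2) * log z - z) = -(z * log z - z) + (1 / 2 : ℝ) * log z := by
      push_cast; ring
    rw [this, add_re, re_ofReal_mul, log_re, neg_re]
  rw [e] at h1
  rw [abs_le] at h1 ⊢
  constructor <;> linarith [h1.1, h1.2]

lemma mem_slit {v : ℂ} (hv : 0 ≤ v.re) (hv0 : v ≠ 0) {x : ℝ} (hx : 0 ≤ x) : v + x ∈ slitPlane := by
  rw [mem_slitPlane_iff]
  by_cases h : 0 < v.re + x
  · left; simpa using h
  · right
    have h1 : v.re = 0 := by linarith
    have h2 : v.im ≠ 0 := by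
      intro h2; exact hv0 (Complex.ext h1 h2)
    simpa using h2

lemma log_shift {v : ℂ} (hv : 0 ≤ v.re) (hv0 : v ≠ 0) : ‖log (v + 1) - log v‖ ≤ 1 / ‖v‖ := by
  have hd : ∀ x ∈ Set.Icc (0:ℝ) 1, HasDerivWithinAt (fun x : ℝ => log (v + x)) (1 / (v + x))
      (Set.Icc (0:ℝ) 1) x := by
    intro x hx
    have h1 : HasDerivAt (fun x : ℝ => v + (x : ℂ)) 1 x := by
      simpa using (Complex.ofRealCLM.hasDerivAt (x := x)).const_add v
    exact (h1.clog_real (mem_slit hv hv0 hx.1)).hasDerivWithinAt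
  have hb : ∀ x ∈ Set.Ico (0:ℝ) 1, ‖1 / (v + x)‖ ≤ 1 / ‖v‖ := by
    intro x hx
    rw [norm_div, norm_one]
    apply one_div_le_one_div_of_le (norm_pos_iff.2 hv0)
    rw [← sq_le_sq₀ (norm_nonneg _) (norm_nonneg _), ← normSq_eq_norm_sq, ← normSq_eq_norm_sq,
      normSq_apply, normSq_apply]
    simp only [add_re, ofReal_re, add_im, ofReal_im, add_zero]
    nlinarith [hx.1, mul_nonneg hx.1 hx.1, mul_nonneg hv hx.1]
  have := norm_image_sub_le_of_norm_deriv_le_segment_01' hd hb
  simpa using this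

/-- Stirling for nonnegative real part -/
lemma stir_half {w : ℂ} (hw : 0 ≤ w.re) (hn : 2 ≤ ‖w‖) :
    |Real.log ‖Gamma w‖ - (w * log w - w).re| ≤ cS + 2 + 4 * Real.log ‖w‖ := by
  have hw0 : w ≠ 0 := by intro h; rw [h] at hn; simp at hn; linarith
  have hG1 : Gamma (w + 1) ≠ 0 := Gamma_ne_zero_of_re_pos (by simp; linarith)
  have hGe := Gamma_add_one w hw0
  have hG : Gamma w ≠ 0 := by
    intro h; rw [h, mul_zero] at hGe; exact hG1 hGe
  have h1 := stir_one (z := w + 1) (by simp; exact hw)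
  have hlw : 0 < Real.log ‖w‖ := Real.log_pos (by linarith)
  have hl1 : Real.log ‖w + 1‖ ≤ 2 * Real.log ‖w‖ := by
    have : ‖w + 1‖ ≤ ‖w‖ ^ 2 := by
      refine (norm_add_le _ _).trans ?_
      rw [norm_one]; nlinarith
    have h2 : 0 < ‖w + 1‖ := by
      rw [norm_pos_iff]; intro h
      have := congrArg re h
      simp at this; linarith
    calc _ ≤ Real.log (‖w‖ ^ 2) := Real.log_le_log h2 this
      _ = _ := by rw [Real.log_pow]; norm_num
  have hl2 : 0 ≤ Real.log ‖w + 1‖ := by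
    apply Real.log_nonneg
    refine le_trans ?_ (re_le_norm _)
    simp; exact hw
  rw [hGe, norm_mul, Real.log_mul (norm_ne_zero_iff.2 hw0) (norm_ne_zero_iff.2 hG)] at h1
  have e : ((w + 1) * log (w + 1) - (w + 1)).re = (w * log w - w).re +
      (w * (log (w + 1) - log w)).re + Real.log ‖w + 1‖ - 1 := by
    have : (w + 1) * log (w + 1) - (w + 1) = (w * log w - w) + w * (log (w + 1) - log w) +
      log (w + 1) - 1 := by ring
    rw [this, sub_re, add_re, add_re, log_re, one_re]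
  rw [e] at h1
  have h3 : |(w * (log (w + 1) - log w)).re| ≤ 1 := by
    refine (abs_re_le_norm _).trans ?_
    rw [norm_mul]
    have := log_shift hw hw0
    have hp : 0 < ‖w‖ := by linarith
    calc _ ≤ ‖w‖ * (1 / ‖w‖) := mul_le_mul_of_nonneg_left this hp.le
      _ = 1 := by field_simp
  rw [abs_le] at h1 h3 ⊢
  constructor <;> linarith [h1.1, h1.2, h3.1, h3.2]

lemma norm_sin_eq (z : ℂ) : ‖sin z‖ = ‖exp (-z * I) - exp (z * I)‖ / 2 := by
  rw [Complex.sin, norm_div, norm_mul, norm_I, mul_one]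
  simp

lemma norm_exp_I (z : ℂ) : ‖exp (z * I)‖ = Real.exp (-z.im) := by
  rw [norm_exp]; simp

lemma norm_exp_neg_I (z : ℂ) : ‖exp (-z * I)‖ = Real.exp (z.im) := by
  rw [norm_exp]; simp

lemma sin_bounds (d : ℝ) (hd : 0 < d) : ∃ K : ℝ, 0 ≤ K ∧ ∀ z : ℂ, d ≤ |z.im| →
    sin z ≠ 0 ∧ |Real.log ‖sin z‖ - (|z.im|)| ≤ K := by
  have he : Real.exp (-(2 * d)) < 1 := by rw [Real.exp_lt_one_iff]; linarith
  have hep := Real.exp_pos (-(2 * d))
  refine ⟨-Real.log ((1 - Real.exp (-(2 * d))) / 2), ?_, ?_⟩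
  · rw [neg_nonneg]; exact Real.log_nonpos (by linarith) (by linarith)
  · intro z hz
    have hup : ‖sin z‖ ≤ Real.exp |z.im| := by
      rw [norm_sin_eq]
      have := norm_sub_le (exp (-z * I)) (exp (z * I))
      rw [norm_exp_neg_I, norm_exp_I] at this
      have h1 : Real.exp (-z.im) ≤ Real.exp |z.im| := Real.exp_le_exp.2 (neg_le_abs _)
      have h2 : Real.exp (z.im) ≤ Real.exp |z.im| := Real.exp_le_exp.2 (le_abs_self _)
      linarith
    have hlo : Real.exp |z.im| * ((1 - Real.exp (-(2 * d))) / 2) ≤ ‖sin z‖ := by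
      rw [norm_sin_eq]
      have h0 : Real.exp |z.im| - Real.exp (-|z.im|) ≤ ‖exp (-z * I) - exp (z * I)‖ := by
        rcases le_total 0 z.im with h | h
        · rw [abs_of_nonneg h]
          have := norm_sub_norm_le (exp (-z * I)) (exp (z * I))
          rw [norm_exp_neg_I, norm_exp_I] at this
          exact this
        · rw [abs_of_nonpos h, neg_neg, norm_sub_rev]
          have := norm_sub_norm_le (exp (z * I)) (exp (-z * I))
          rw [norm_exp_neg_I, norm_exp_I] at this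
          exact this
      have h1 : Real.exp (-|z.im|) ≤ Real.exp |z.im| * Real.exp (-(2 * d)) := by
        rw [← Real.exp_add]; apply Real.exp_le_exp.2; linarith
      linarith
    have hpos : 0 < Real.exp |z.im| * ((1 - Real.exp (-(2 * d))) / 2) := by
      apply mul_pos (Real.exp_pos _); linarith
    have hsp : 0 < ‖sin z‖ := lt_of_lt_of_le hpos hlo
    refine ⟨norm_pos_iff.1 hsp, ?_⟩
    have h1 := Real.log_le_log hsp hup
    have h2 := Real.log_le_log hpos hlo
    rw [Real.log_exp] at h1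
    rw [Real.log_mul (Real.exp_pos _).ne' (by linarith), Real.log_exp] at h2
    have h3 : Real.log ((1 - Real.exp (-(2 * d))) / 2) ≤ 0 :=
      Real.log_nonpos (by linarith) (by linarith)
    rw [abs_le]
    constructor <;> linarith

lemma main_neg {w : ℂ} (him : w.im ≠ 0) :
    (-w * log (-w) - -w).re = -(w * log w - w).re - Real.pi * |w.im| := by
  rcases lt_or_gt_of_ne him with h | h
  · have e : log (-w) = log w + Real.pi * I := by
      unfold log
      rw [norm_neg, arg_neg_eq_arg_add_pi_of_im_neg h]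
      push_cast; ring
    rw [e, abs_of_neg h]
    have : -w * (log w + Real.pi * I) - -w = -(w * log w - w) - (Real.pi : ℝ) * (w * I) := by ring
    rw [this, sub_re, neg_re, re_ofReal_mul, mul_I_re]
  · have e : log (-w) = log w - Real.pi * I := by
      unfold log
      rw [norm_neg, arg_neg_eq_arg_sub_pi_of_im_pos h]
      push_cast; ring
    rw [e, abs_of_pos h]
    have : -w * (log w - Real.pi * I) - -w = -(w * log w - w) + (Real.pi : ℝ) * (w * I) := by ring
    rw [this, add_re, neg_re, re_ofReal_mul, mul_I_re]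
    ring

lemma im_lower {w : ℂ} {ε : ℝ} (hε : 0 < ε) (hε2 : ε ≤ Real.pi / 2) (hw : w.re ≤ 0) (hn : 2 ≤ ‖w‖)
    (harg : |arg w| ≤ Real.pi - ε) : 2 * Real.sin ε ≤ |w.im| := by
  have hw0 : w ≠ 0 := by intro h; rw [h] at hn; simp at hn; linarith
  have h1 : Real.pi / 2 ≤ |arg w| := by
    by_contra hcon
    push Not at hcon
    rw [abs_arg_lt_pi_div_two_iff] at hcon
    rcases hcon with h | h
    · linarith
    · exact hw0 h
  have h2 : |w.im| = ‖w‖ * Real.sin |arg w| := by
    have h3 : Real.sin |arg w| = |Real.sin (arg w)| := by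
      rcases le_total 0 (arg w) with h | h
      · rw [abs_of_nonneg h, abs_of_nonneg]
        exact Real.sin_nonneg_of_nonneg_of_le_pi h (arg_le_pi w)
      · rw [abs_of_nonpos h, Real.sin_neg, abs_of_nonpos]
        exact Real.sin_nonpos_of_nonpos_of_neg_pi_le h (neg_pi_lt_arg w).le
    rw [h3, sin_arg, abs_div, abs_of_pos (show 0 < ‖w‖ by linarith)]
    field_simp
  have h3 : Real.sin ε ≤ Real.sin |arg w| := by
    rw [← Real.sin_pi_sub |arg w|]
    apply Real.sin_le_sin_of_le_of_le_pi_div_two <;> linarith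
  have h4 : 0 < Real.sin ε := Real.sin_pos_of_pos_of_lt_pi hε (by linarith [Real.pi_pos])
  rw [h2]
  nlinarith

theorem stir : S_STIR := by
  intro ε0 hε0 hεpi
  set ε := min ε0 (Real.pi / 2) with hεdef
  have hε : 0 < ε := lt_min hε0 (by positivity)
  have hε2 : ε ≤ Real.pi / 2 := min_le_right _ _
  have hs : 0 < Real.sin ε := Real.sin_pos_of_pos_of_lt_pi hε (by linarith [Real.pi_pos])
  obtain ⟨K, hK, hsin⟩ := sin_bounds (Real.pi * (2 * Real.sin ε)) (by positivity)
  have hl2 : 0 < Real.log 2 := Real.log_pos (by norm_num)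
  have hlpi : 0 ≤ Real.log Real.pi := Real.log_nonneg (by linarith [Real.pi_gt_three])
  refine ⟨(cS + 2 + K + Real.log Real.pi) / Real.log 2 + 5, ?_⟩
  intro w hn harg0
  have harg : |arg w| ≤ Real.pi - ε := harg0.trans (by linarith [min_le_left ε0 (Real.pi / 2)])
  have hlw : Real.log 2 ≤ Real.log ‖w‖ := Real.log_le_log (by norm_num) hn
  have hfin : cS + 2 + K + Real.log Real.pi + 5 * Real.log ‖w‖ ≤
      ((cS + 2 + K + Real.log Real.pi) / Real.log 2 + 5) * Real.log ‖w‖ := by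
    have h1 : 0 ≤ (cS + 2 + K + Real.log Real.pi) / Real.log 2 := by
      have := cS_nonneg; positivity
    have h2 : (cS + 2 + K + Real.log Real.pi) / Real.log 2 * Real.log 2 =
        cS + 2 + K + Real.log Real.pi := by field_simp
    nlinarith
  refine le_trans ?_ hfin
  rcases le_total 0 w.re with hre | hre
  · refine (stir_half hre hn).trans ?_
    linarith
  · have him := im_lower hε hε2 hre hn harg
    have him0 : w.im ≠ 0 := by
      intro h; rw [h, abs_zero] at him; linarith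
    have hw0 : w ≠ 0 := by intro h; rw [h] at him0; exact him0 rfl
    have hv := stir_half (w := -w) (by simp; exact hre) (by rw [norm_neg]; exact hn)
    rw [main_neg him0, norm_neg] at hv
    obtain ⟨hsn, hsb⟩ := hsin (Real.pi * w) (by
      rw [im_ofReal_mul, abs_mul, abs_of_pos Real.pi_pos]
      exact mul_le_mul_of_nonneg_left him Real.pi_pos.le)
    rw [im_ofReal_mul, abs_mul, abs_of_pos Real.pi_pos] at hsb
    have hrefl := Gamma_mul_Gamma_one_sub w
    have hG1 : Gamma (1 - w) = -w * Gamma (-w) := by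
      rw [← Gamma_add_one (-w) (neg_ne_zero.2 hw0)]
      congr 1; ring
    have hGv1 : Gamma (1 - w) ≠ 0 := Gamma_ne_zero_of_re_pos (by simp; linarith)
    have hGv : Gamma (-w) ≠ 0 := by
      intro h; rw [h, mul_zero] at hG1; exact hGv1 hG1
    have hpi : (Real.pi : ℂ) ≠ 0 := by exact_mod_cast Real.pi_ne_zero
    have hGw : Gamma w ≠ 0 := by
      intro h; rw [h, zero_mul] at hrefl
      exact div_ne_zero hpi hsn hrefl.symm
    have hlog := congrArg (fun x : ℂ => Real.log ‖x‖) hrefl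
    rw [hG1, norm_mul, norm_mul, norm_neg, norm_div, Real.log_mul (norm_ne_zero_iff.2 hGw)
      (mul_ne_zero (norm_ne_zero_iff.2 hw0) (norm_ne_zero_iff.2 hGv)),
      Real.log_mul (norm_ne_zero_iff.2 hw0) (norm_ne_zero_iff.2 hGv),
      Real.log_div (norm_ne_zero_iff.2 hpi) (norm_ne_zero_iff.2 hsn), norm_real, Real.norm_eq_abs,
      abs_of_pos Real.pi_pos] at hlog
    rw [abs_le] at hv hsb ⊢
    constructor <;> linarith [hv.1, hv.2, hsb.1, hsb.2]

end Pool.Agent.W688.GF
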